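import Mathlib
import Pool.Agent.Lib_MP_fa6e45.CW36
import Pool.Agent.Lib_MP_fa6e45.DQF36
import Pool.Agent.Lib_MP_fa6e45.DQG7
import Pool.Agent.Lib_MP_fa6e45.DQG8
import Pool.Agent.Lib_MP_fa6e45.RY

/-!
# MP_fa6e45_co: polygons with at most eight corners, or at most one reflex corner

Let `P` be a polygon (not necessarily convex, arbitrary side lengths) which has an edge-to-edge monohedral tiling of
the plane. If `P` has at most eight corners, or at most one reflex corner, or a corner which belongs to every pair of
complementary corners, then `P` admits a periodic monohedral tiling. The last two classes reduce to the first one: if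
`P` has an edge-to-edge tiling, then it has at most `6 + 2 r` corners if `r` of them are reflex, or if `r` of them meet
all pairs of complementary corners.
-/

namespace Pool.Agent.Results.MP_fa6e45_co.EightCorners

open Pool.Agent.Lib_MP_fa6e45

/-- A polygon which has an edge-to-edge monohedral tiling of the plane, and which has at most eight corners, or at most
one reflex corner, or a corner `k` which belongs to every pair of complementary corners, admits a periodic monohedral
tiling. -/
theorem result {n : ℕ} (P : Polygon n) (𝒮 : Set (Set ℂ)) (h : P.IsTiling 𝒮)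
    (he : P.EdgeToEdge 𝒮)
    (hs : n ≤ 8 ∨ {i : ZMod n | Real.pi < P.angle i}.ncard ≤ 1 ∨
      ∃ k : ZMod n, ∀ i j : ZMod n, P.ComplPair i j → i = k ∨ j = k) :
    ∃ 𝒯 : Set (Set ℂ), P.IsTiling 𝒯 ∧ Periodic 𝒯 := by
  have hn : n ≤ 8 := by
    rcases hs with h1 | h1 | ⟨k, h1⟩
    · exact h1
    · exact le_eight_of_reflex P h he h1
    · exact le_eight_of_pairs P h he k h1
  exact upTo8 certV3 certV4 certV5 certV6 certV7 certV8 hn P h he

end Pool.Agent.Results.MP_fa6e45_co.EightCorners
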