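import Mathlib
import Pool.Agent.Lib_MP_fa6e45.GF

/-!
# MP_fa6e45_co: polygons without three equal sides

If no three sides of a polygon `P` (not necessarily convex, with any number of sides) have the same length and
`P` admits an edge-to-edge monohedral tiling of the plane, then `P` admits a periodic monohedral tiling.
-/

namespace Pool.Agent.Results.MP_fa6e45_co.NoThreeEqualSides

open Pool.Agent.Lib_MP_fa6e45

/-- A polygon without three equal sides which admits an edge-to-edge monohedral tiling admits a periodic one. -/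
theorem result {n : ℕ} (P : Polygon n) (𝒮 : Set (Set ℂ)) (h : P.IsTiling 𝒮)
    (he : P.EdgeToEdge 𝒮)
    (hl : ∀ i j k : ZMod n, i ≠ j → j ≠ k → i ≠ k → ¬ (P.len i = P.len j ∧ P.len j = P.len k)) :
    ∃ 𝒯 : Set (Set ℂ), P.IsTiling 𝒯 ∧ Periodic 𝒯 :=
  main5_thm P h he hl

end Pool.Agent.Results.MP_fa6e45_co.NoThreeEqualSides
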