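import Mathlib
import Pool.Agent.Lib_MP_fa6e45.EQ9
import Pool.Agent.Lib_MP_fa6e45.CQRF
import Pool.Agent.Lib_MP_fa6e45.CW36
import Pool.Agent.Lib_MP_fa6e45.DQF36

/-!
# MP_fa6e45_co: tilings with at most six active corners, and polygons with generic angles

Let `P` be a polygon (not necessarily convex, any number of corners, arbitrary side lengths) with an edge-to-edge
monohedral tiling of the plane, and let `g t` place `P` on the tile `t`. Suppose that there is a set `M` of corners of
`P` such that

* never three tiles meet at a reflex corner outside `M`, and such a corner never coincides with a corner in `M`;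
* at most half of the corners outside `M` are convex, or the first condition holds for all corners outside `M`;
* `M` has at most six elements, or at least three tiles meet at every reflex corner in `M` of every tile.

Then `P` admits a periodic monohedral tiling. The main example, a condition on the angles of `P` only, is stated
explicitly: no angle at a convex complementary corner is a sum of two or more angles of `P`, and at most as many convex
as reflex corners are complementary (then `M` is the set of the corners which are not complementary).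
-/

namespace Pool.Agent.Results.MP_fa6e45_co.SixActiveCorners

open Pool.Agent.Lib_MP_fa6e45

/-- A polygon with an edge-to-edge monohedral tiling admits a periodic monohedral tiling in each of the following cases:
no interior angle at a convex complementary corner is a sum of two or more interior angles and at most as many convex as
reflex corners are complementary; or the polygon is placed on the tiles `t` by `g t` and there is a set `M` of corners
such that never three tiles meet at a reflex corner outside `M`, such a corner never coincides with a corner in `M`,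
outside `M` at most as many corners are convex as reflex or both conditions hold for all corners outside `M`, and `M` has
at most six elements or at least three tiles meet at every reflex corner in `M` of every tile. -/
theorem result {n : ℕ} (P : Polygon n) (𝒮 : Set (Set ℂ)) (h : P.IsTiling 𝒮)
    (he : P.EdgeToEdge 𝒮)
    (hs : ((∀ j : ZMod n, P.Complementary j → P.angle j < Real.pi → ∀ l : List (ZMod n), 2 ≤ l.length →
          (l.map P.angle).sum ≠ P.angle j) ∧
        {j : ZMod n | P.Complementary j ∧ P.angle j < Real.pi}.ncard ≤
          {j : ZMod n | P.Complementary j ∧ Real.pi < P.angle j}.ncard) ∨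
      ∃ g : Set ℂ → ℂ ≃ᵢ ℂ, (∀ t ∈ 𝒮, t = g t '' P.region) ∧ ∃ M : Finset (ZMod n),
        (∀ t ∈ 𝒮, ∀ i : ZMod n, i ∉ M → Real.pi < P.angle i → ¬ ThreeAt 𝒮 (g t (P.vertex i))) ∧
        (∀ s ∈ 𝒮, ∀ t ∈ 𝒮, ∀ i j : ZMod n, i ∉ M → Real.pi < P.angle i → j ∈ M →
          g s (P.vertex i) ≠ g t (P.vertex j)) ∧
        ({i : ZMod n | i ∉ M ∧ P.angle i < Real.pi}.ncard ≤
            {i : ZMod n | i ∉ M ∧ Real.pi < P.angle i}.ncard ∨
          (∀ t ∈ 𝒮, ∀ i : ZMod n, i ∉ M → ¬ ThreeAt 𝒮 (g t (P.vertex i))) ∧
            ∀ s ∈ 𝒮, ∀ t ∈ 𝒮, ∀ i j : ZMod n, i ∉ M → j ∈ M → g s (P.vertex i) ≠ g t (P.vertex j)) ∧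
        (M.card ≤ 6 ∨ ∀ t ∈ 𝒮, ∀ i ∈ M, Real.pi < P.angle i → ThreeAt 𝒮 (g t (P.vertex i)))) :
    ∃ 𝒯 : Set (Set ℂ), P.IsTiling 𝒯 ∧ Periodic 𝒯 := by
  have hk : n ≤ 6 → ∃ 𝒯 : Set (Set ℂ), P.IsTiling 𝒯 ∧ Periodic 𝒯 := by
    intro h6
    have h0 := P.three_le
    have hcases : n = 3 ∨ n = 4 ∨ n = 5 ∨ n = 6 := by omega
    rcases hcases with rfl | rfl | rfl | rfl
    · exact mainS_of (fun P S hw => enumS3 S hw) P h he certV3
    · exact mainS_of (fun P S hw => enumS4 S hw) P h he certV4
    · exact mainS_of (fun P S hw => enumS5 S hw) P h he certV5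
    · exact mainS_of (fun P S hw => enumS6 S hw) P h he certV6
  rcases hs with ⟨h1, h2⟩ | ⟨g, hg, M, h1, h2, h3, h4⟩
  · exact generic_thm certQ3 certQ4 certQ5 certQ6 P h he hk h1 h2
  · exact reflex_thm certQ3 certQ4 certQ5 certQ6 P h he hk g hg M h1 h2 h3 h4

end Pool.Agent.Results.MP_fa6e45_co.SixActiveCorners
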