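import Mathlib
import Pool.Agent.Lib_MP_fa6e45.EQ6
import Pool.Agent.Lib_MP_fa6e45.CQRF
import Pool.Agent.Lib_MP_fa6e45.CW36
import Pool.Agent.Lib_MP_fa6e45.DQF36

/-!
# MP_fa6e45_co: corners which are not complementary

Let `P` be a polygon (not necessarily convex, any number of corners) with an edge-to-edge monohedral tiling of the plane.
Then at most five corners of `P` are not complementary, or exactly six corners of `P` are not complementary and `P` has a
periodic monohedral tiling.
-/

namespace Pool.Agent.Results.MP_fa6e45_co.SixCorners

open Pool.Agent.Lib_MP_fa6e45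

/-- If a polygon with `n` corners (not necessarily convex) admits an edge-to-edge monohedral tiling of the plane, then at
most five of its corners are not complementary, or exactly six of its corners are not complementary and it admits a
periodic monohedral tiling. -/
theorem result {n : ℕ} (P : Polygon n) (𝒮 : Set (Set ℂ)) (h : P.IsTiling 𝒮)
    (he : P.EdgeToEdge 𝒮) :
    {i : ZMod n | ¬ P.Complementary i}.ncard ≤ 5 ∨
      ({i : ZMod n | ¬ P.Complementary i}.ncard = 6 ∧
        ∃ 𝒯 : Set (Set ℂ), P.IsTiling 𝒯 ∧ Periodic 𝒯) := by
  refine six_thm certQ3 certQ4 certQ5 certQ6 P h he (fun h6 => ?_)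
  have h0 := P.three_le
  have hcases : n = 3 ∨ n = 4 ∨ n = 5 ∨ n = 6 := by omega
  rcases hcases with rfl | rfl | rfl | rfl
  · exact mainS_of (fun P S hw => enumS3 S hw) P h he certV3
  · exact mainS_of (fun P S hw => enumS4 S hw) P h he certV4
  · exact mainS_of (fun P S hw => enumS5 S hw) P h he certV5
  · exact mainS_of (fun P S hw => enumS6 S hw) P h he certV6

end Pool.Agent.Results.MP_fa6e45_co.SixCorners
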